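import Pool.Agent.ASO.Stmts1

/-!
# Squad ASO, row GAU: a cocycle of two commuting permutations with given holonomy
-/

open scoped BigOperators

noncomputable section

namespace Pool.Agent.PP.SO.H27

open Pool.Agent.PP.SO

section path

variable {Z : Type} (a c : Equiv.Perm Z) (α γ : Z → ℚ)

/-- the sum along `a ^ i` -/
def PA (f : Z → ℚ) (p : Equiv.Perm Z) (i : ℕ) (z : Z) : ℚ := ∑ s ∈ Finset.range i, f ((p ^ s) z)

/-- the sum along `a ^ i c ^ j` -/
def PS (i j : ℕ) (z : Z) : ℚ := PA α a i ((c ^ j) z) + PA γ c j z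

theorem PA_add (f : Z → ℚ) (p : Equiv.Perm Z) (i j : ℕ) (z : Z) :
    PA f p (i + j) z = PA f p j z + PA f p i ((p ^ j) z) := by
  unfold PA
  rw [add_comm i j, Finset.sum_range_add]
  congr 1
  refine Finset.sum_congr rfl fun s _ => ?_
  rw [add_comm j s, pow_add, Equiv.Perm.mul_apply]

theorem PA_succ (f : Z → ℚ) (p : Equiv.Perm Z) (i : ℕ) (z : Z) :
    PA f p (i + 1) z = PA f p i z + f ((p ^ i) z) := Finset.sum_range_succ _ _

variable {a c α γ} {R : Subring ℚ}

theorem cpow (hac : a * c = c * a) (i j : ℕ) (z : Z) :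
    (a ^ i) ((c ^ j) z) = (c ^ j) ((a ^ i) z) := by
  rw [← Equiv.Perm.mul_apply, ← Equiv.Perm.mul_apply]
  have h : Commute a c := hac
  rw [(h.pow_pow i j).eq]

theorem comm1 (hac : a * c = c * a) (h : ∀ z, α (c z) + γ z - (γ (a z) + α z) ∈ R) (i : ℕ)
    (z : Z) : PA α a i (c z) + γ z - (γ ((a ^ i) z) + PA α a i z) ∈ R := by
  induction i with
  | zero =>
    unfold PA
    simp [R.zero_mem]
  | succ i ih =>
    rw [PA_succ, PA_succ]
    have h1 := h ((a ^ i) z)
    have h2 : (a ^ i) (c z) = c ((a ^ i) z) := by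
      have := cpow hac i 1 z
      rwa [pow_one] at this
    have h3 : a ((a ^ i) z) = (a ^ (i + 1)) z := by
      rw [pow_succ', Equiv.Perm.mul_apply]
    rw [h3] at h1
    rw [h2]
    have e : PA α a i (c z) + α (c ((a ^ i) z)) + γ z -
        (γ ((a ^ (i + 1)) z) + (PA α a i z + α ((a ^ i) z))) =
        (PA α a i (c z) + γ z - (γ ((a ^ i) z) + PA α a i z)) +
        (α (c ((a ^ i) z)) + γ ((a ^ i) z) - (γ ((a ^ (i + 1)) z) + α ((a ^ i) z))) := by ring
    rw [e]
    exact R.add_mem ih h1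

theorem comm2 (hac : a * c = c * a) (h : ∀ z, α (c z) + γ z - (γ (a z) + α z) ∈ R) (i j : ℕ)
    (z : Z) : PA α a i ((c ^ j) z) + PA γ c j z - (PA γ c j ((a ^ i) z) + PA α a i z) ∈ R := by
  induction j with
  | zero =>
    have e : PA α a i ((c ^ 0) z) + PA γ c 0 z - (PA γ c 0 ((a ^ i) z) + PA α a i z) = 0 := by
      unfold PA
      simp
    rw [e]
    exact R.zero_mem
  | succ j ih =>
    rw [PA_succ, PA_succ]
    have h1 := comm1 hac h i ((c ^ j) z)
    have h3 : c ((c ^ j) z) = (c ^ (j + 1)) z := by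
      rw [pow_succ', Equiv.Perm.mul_apply]
    rw [h3, cpow hac] at h1
    have e : PA α a i ((c ^ (j + 1)) z) + (PA γ c j z + γ ((c ^ j) z)) -
        (PA γ c j ((a ^ i) z) + γ ((c ^ j) ((a ^ i) z)) + PA α a i z) =
        (PA α a i ((c ^ j) z) + PA γ c j z - (PA γ c j ((a ^ i) z) + PA α a i z)) +
        (PA α a i ((c ^ (j + 1)) z) + γ ((c ^ j) z) -
          (γ ((c ^ j) ((a ^ i) z)) + PA α a i ((c ^ j) z))) := by ring
    rw [e]
    exact R.add_mem ih h1

theorem PS_add (hac : a * c = c * a) (h : ∀ z, α (c z) + γ z - (γ (a z) + α z) ∈ R)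
    (i j i' j' : ℕ) (z : Z) :
    PS a c α γ i j ((a ^ i') ((c ^ j') z)) + PS a c α γ i' j' z -
      PS a c α γ (i + i') (j + j') z ∈ R := by
  unfold PS
  have h1 := comm2 hac h i' j ((c ^ j') z)
  have h2 : (c ^ (j + j')) z = (c ^ j) ((c ^ j') z) := by rw [pow_add, Equiv.Perm.mul_apply]
  rw [PA_add α, PA_add γ, h2, cpow hac i' j]
  have e : PA α a i ((c ^ j) ((a ^ i') ((c ^ j') z))) + PA γ c j ((a ^ i') ((c ^ j') z)) +
      (PA α a i' ((c ^ j') z) + PA γ c j' z) -
      (PA α a i' ((c ^ j) ((c ^ j') z)) + PA α a i ((c ^ j) ((a ^ i') ((c ^ j') z))) +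
        (PA γ c j' z + PA γ c j ((c ^ j') z))) =
      -(PA α a i' ((c ^ j) ((c ^ j') z)) + PA γ c j ((c ^ j') z) -
        (PA γ c j ((a ^ i') ((c ^ j') z)) + PA α a i' ((c ^ j') z))) := by ring
  rw [e]
  exact R.neg_mem h1

/-- the sum depends only on the end point -/
theorem PS_end (hac : a * c = c * a) (h : ∀ z, α (c z) + γ z - (γ (a z) + α z) ∈ R)
    (hol : ∀ (z : Z) (i j : ℕ), (a ^ i * c ^ j) z = z → PS a c α γ i j z ∈ R) {N : ℕ}
    (hN : 0 < N) (hNa : a ^ N = 1) (hNc : c ^ N = 1) (i j i' j' : ℕ) (z : Z)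
    (he : (a ^ i * c ^ j) z = (a ^ i' * c ^ j') z) :
    PS a c α γ i j z - PS a c α γ i' j' z ∈ R := by
  obtain ⟨n, rfl⟩ : ∃ n, N = n + 1 := ⟨N - 1, by omega⟩
  have hback : (a ^ (n * i) * c ^ (n * j)) ((a ^ i * c ^ j) z) = z := by
    rw [← Equiv.Perm.mul_apply]
    have h1 : Commute a c := hac
    have e : a ^ (n * i) * c ^ (n * j) * (a ^ i * c ^ j) = 1 := by
      have h2 := (h1.symm.pow_pow (n * j) i).eq
      calc a ^ (n * i) * c ^ (n * j) * (a ^ i * c ^ j)
          = a ^ (n * i) * (c ^ (n * j) * a ^ i) * c ^ j := by simp only [mul_assoc]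
        _ = a ^ (n * i) * (a ^ i * c ^ (n * j)) * c ^ j := by rw [h2]
        _ = (a ^ (n * i) * a ^ i) * (c ^ (n * j) * c ^ j) := by simp only [mul_assoc]
        _ = 1 := by
          rw [← pow_add, ← pow_add]
          have e1 : n * i + i = (n + 1) * i := by ring
          have e2 : n * j + j = (n + 1) * j := by ring
          rw [e1, e2, pow_mul, pow_mul, hNa, hNc, one_pow, one_pow, one_mul]
    rw [e]
    rfl
  have k1 := PS_add hac h (n * i) (n * j) i j z
  have k2 := PS_add hac h (n * i) (n * j) i' j' z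
  rw [← Equiv.Perm.mul_apply (a ^ i), he] at k1
  rw [← Equiv.Perm.mul_apply (a ^ i')] at k2
  have l1 : (a ^ (n * i + i) * c ^ (n * j + j)) z = z := by
    have e : a ^ (n * i + i) * c ^ (n * j + j) = a ^ (n * i) * c ^ (n * j) * (a ^ i * c ^ j) := by
      have h1 : Commute a c := hac
      have h2 := (h1.symm.pow_pow (n * j) i).eq
      rw [pow_add, pow_add, mul_assoc, ← mul_assoc (a ^ i), ← h2]
      simp only [mul_assoc]
    rw [e, Equiv.Perm.mul_apply, hback]
  have l2 : (a ^ (n * i + i') * c ^ (n * j + j')) z = z := by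
    have e : a ^ (n * i + i') * c ^ (n * j + j') =
        a ^ (n * i) * c ^ (n * j) * (a ^ i' * c ^ j') := by
      have h1 : Commute a c := hac
      have h2 := (h1.symm.pow_pow (n * j) i').eq
      rw [pow_add, pow_add, mul_assoc, ← mul_assoc (a ^ i'), ← h2]
      simp only [mul_assoc]
    rw [e, Equiv.Perm.mul_apply, ← he, hback]
  have m1 := hol _ _ _ l1
  have m2 := hol _ _ _ l2
  obtain ⟨X, hX⟩ : ∃ X, X = PS a c α γ (n * i) (n * j) ((a ^ i' * c ^ j') z) := ⟨_, rfl⟩
  rw [← hX] at k1 k2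
  have e : PS a c α γ i j z - PS a c α γ i' j' z =
      (X + PS a c α γ i j z - PS a c α γ (n * i + i) (n * j + j) z) +
      PS a c α γ (n * i + i) (n * j + j) z -
      (X + PS a c α γ i' j' z - PS a c α γ (n * i + i') (n * j + j') z) -
      PS a c α γ (n * i + i') (n * j + j') z := by ring
  rw [e]
  exact R.sub_mem (R.sub_mem (R.add_mem k1 m1) k2) m2

end path

/-- the case of trivial holonomy -/
theorem gau0 (R : Subring ℚ) (Z : Type) [Finite Z] (a c : Equiv.Perm Z) (hac : a * c = c * a)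
    (α γ : Z → ℚ) (h : ∀ z, α (c z) + γ z - (γ (a z) + α z) ∈ R)
    (hol : ∀ (z : Z) (i j : ℕ), (a ^ i * c ^ j) z = z → PS a c α γ i j z ∈ R) :
    ∃ u : Z → ℚ, ∀ z, α z - (u (a z) - u z) ∈ R ∧ γ z - (u (c z) - u z) ∈ R := by
  classical
  have hcm : Commute a c := hac
  obtain ⟨N, hN, hNa, hNc⟩ : ∃ N, 0 < N ∧ a ^ N = 1 ∧ c ^ N = 1 := by
    refine ⟨orderOf a * orderOf c, Nat.mul_pos (orderOf_pos a) (orderOf_pos c), ?_, ?_⟩
    · rw [pow_mul, pow_orderOf_eq_one, one_pow]
    · rw [mul_comm, pow_mul, pow_orderOf_eq_one, one_pow]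
  have hmul : ∀ i j i' j' : ℕ, (a ^ i * c ^ j) * (a ^ i' * c ^ j') =
      a ^ (i + i') * c ^ (j + j') := by
    intro i j i' j'
    have h2 := (hcm.symm.pow_pow j i').eq
    rw [pow_add, pow_add, mul_assoc, ← mul_assoc (c ^ j), h2]
    simp only [mul_assoc]
  let s : Setoid Z :=
    { r := fun z w => ∃ i j : ℕ, (a ^ i * c ^ j) z = w
      iseqv := by
        refine ⟨fun z => ⟨0, 0, by simp⟩, ?_, ?_⟩
        · rintro z w ⟨i, j, rfl⟩
          obtain ⟨n, rfl⟩ : ∃ n, N = n + 1 := ⟨N - 1, by omega⟩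
          refine ⟨n * i, n * j, ?_⟩
          rw [← Equiv.Perm.mul_apply, hmul]
          have e1 : n * i + i = (n + 1) * i := by ring
          have e2 : n * j + j = (n + 1) * j := by ring
          rw [e1, e2, pow_mul, pow_mul, hNa, hNc, one_pow, one_pow, one_mul]
          rfl
        · rintro z w v ⟨i, j, rfl⟩ ⟨i', j', rfl⟩
          exact ⟨i' + i, j' + j, by rw [← hmul, Equiv.Perm.mul_apply]⟩ }
  obtain ⟨rep, hrep1, hrep2⟩ : ∃ rep : Z → Z,
      (∀ z, ∃ i j : ℕ, (a ^ i * c ^ j) (rep z) = z) ∧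
      (∀ z w, (∃ i j : ℕ, (a ^ i * c ^ j) z = w) → rep z = rep w) := by
    refine ⟨fun z => (Quotient.mk s z).out, fun z => ?_, fun z w hzw => ?_⟩
    · exact Quotient.mk_out (s := s) z
    · have h1 : Quotient.mk s z = Quotient.mk s w := Quotient.sound (s := s) hzw
      simp only [h1]
  choose I J hIJ using hrep1
  refine ⟨fun z => PS a c α γ (I z) (J z) (rep z), fun z => ⟨?_, ?_⟩⟩
  · have h1 : rep z = rep (a z) := hrep2 z (a z) ⟨1, 0, by simp⟩
    have h2 : (a ^ I (a z) * c ^ J (a z)) (rep z) = (a ^ (I z + 1) * c ^ J z) (rep z) := by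
      have h3 := hIJ (a z)
      rw [← h1] at h3
      rw [h3, pow_succ', mul_assoc, Equiv.Perm.mul_apply, hIJ z]
    have h4 := PS_end hac h hol hN hNa hNc _ _ _ _ _ h2
    have h5 : PS a c α γ (I z + 1) (J z) (rep z) = PS a c α γ (I z) (J z) (rep z) + α z := by
      unfold PS
      rw [PA_succ, ← Equiv.Perm.mul_apply (a ^ I z), hIJ z]
      ring
    rw [h5] at h4
    simp only [← h1]
    have e : α z - (PS a c α γ (I (a z)) (J (a z)) (rep z) - PS a c α γ (I z) (J z) (rep z)) =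
        -(PS a c α γ (I (a z)) (J (a z)) (rep z) -
          (PS a c α γ (I z) (J z) (rep z) + α z)) := by ring
    rw [e]
    exact R.neg_mem h4
  · have h1 : rep z = rep (c z) := hrep2 z (c z) ⟨0, 1, by simp⟩
    have hpc : (a ^ I z * c ^ (J z + 1)) (rep z) = c z := by
      have e : a ^ I z * c ^ (J z + 1) = c * (a ^ I z * c ^ J z) := by
        have h2 := (hcm.symm.pow_right (I z)).eq
        rw [pow_succ', ← mul_assoc, ← h2, mul_assoc]
      rw [e, Equiv.Perm.mul_apply, hIJ z]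
    have h2 : (a ^ I (c z) * c ^ J (c z)) (rep z) = (a ^ I z * c ^ (J z + 1)) (rep z) := by
      have h3 := hIJ (c z)
      rw [← h1] at h3
      rw [h3, hpc]
    have h4 := PS_end hac h hol hN hNa hNc _ _ _ _ _ h2
    have h5 : PS a c α γ (I z) (J z + 1) (rep z) - (PS a c α γ (I z) (J z) (rep z) + γ z) ∈ R := by
      unfold PS
      rw [PA_succ]
      have k1 := comm1 hac h (I z) ((c ^ J z) (rep z))
      have k2 : c ((c ^ J z) (rep z)) = (c ^ (J z + 1)) (rep z) := by
        rw [pow_succ', Equiv.Perm.mul_apply]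
      rw [k2, ← Equiv.Perm.mul_apply (a ^ I z), hIJ z] at k1
      have e : PA α a (I z) ((c ^ (J z + 1)) (rep z)) +
          (PA γ c (J z) (rep z) + γ ((c ^ J z) (rep z))) -
          (PA α a (I z) ((c ^ J z) (rep z)) + PA γ c (J z) (rep z) + γ z) =
          PA α a (I z) ((c ^ (J z + 1)) (rep z)) + γ ((c ^ J z) (rep z)) -
            (γ z + PA α a (I z) ((c ^ J z) (rep z))) := by ring
      rw [e]
      exact k1
    simp only [← h1]
    have e : γ z - (PS a c α γ (I (c z)) (J (c z)) (rep z) - PS a c α γ (I z) (J z) (rep z)) =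
        -(PS a c α γ (I (c z)) (J (c z)) (rep z) - PS a c α γ (I z) (J z + 1) (rep z)) -
        (PS a c α γ (I z) (J z + 1) (rep z) - (PS a c α γ (I z) (J z) (rep z) + γ z)) := by
      ring
    rw [e]
    exact R.sub_mem (R.neg_mem h4) h5

/-- GAU -/
theorem gau : GauStmt := by
  intro R Z _ a c hac α γ μ ν h hinv hol
  have pow_inv : ∀ (f : Z → ℚ) (p : Equiv.Perm Z), (∀ z, f (p z) = f z) →
      ∀ (n : ℕ) (z : Z), f ((p ^ n) z) = f z := by
    intro f p hf n
    induction n with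
    | zero => intro z; simp
    | succ n ih =>
      intro z
      rw [pow_succ', Equiv.Perm.mul_apply, hf, ih]
  obtain ⟨u, hu⟩ := gau0 R Z a c hac (fun z => α z - μ z) (fun z => γ z - ν z) (by
    intro z
    obtain ⟨h1, h2, h3, h4⟩ := hinv z
    have e : α (c z) - μ (c z) + (γ z - ν z) - (γ (a z) - ν (a z) + (α z - μ z)) =
        α (c z) + γ z - (γ (a z) + α z) := by
      rw [h2, h3]
      ring
    simp only [e]
    exact h z) (by
    intro z i j hz
    have h1 := hol z i j hz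
    have e : PS a c (fun z => α z - μ z) (fun z => γ z - ν z) i j z =
        (∑ s ∈ Finset.range i, α ((a ^ s * c ^ j) z) + ∑ s ∈ Finset.range j, γ ((c ^ s) z)) -
          (i * μ z + j * ν z) := by
      unfold PS PA
      rw [Finset.sum_sub_distrib, Finset.sum_sub_distrib]
      have e1 : ∑ s ∈ Finset.range i, μ ((a ^ s) ((c ^ j) z)) = i * μ z := by
        rw [Finset.sum_congr rfl fun s _ => (pow_inv μ a (fun z => (hinv z).1) s _).trans
          (pow_inv μ c (fun z => (hinv z).2.1) j z), Finset.sum_const, Finset.card_range,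
          nsmul_eq_mul]
      have e2 : ∑ s ∈ Finset.range j, ν ((c ^ s) z) = j * ν z := by
        rw [Finset.sum_congr rfl fun s _ => pow_inv ν c (fun z => (hinv z).2.2.2) s z,
          Finset.sum_const, Finset.card_range, nsmul_eq_mul]
      rw [e1, e2]
      simp only [Equiv.Perm.mul_apply]
      ring
    rw [e]
    exact h1)
  exact ⟨u, hu⟩

end Pool.Agent.PP.SO.H27
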